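import Mathlib

set_option autoImplicit false

/-!
# The conductor of an ideal
-/

namespace Q52.Cond

open MvPolynomial

variable {R : Type*} [CommRing R] {m : ℕ}

/-- The map `φ : R[y₁, …, y_m] → R[t]`, `y_j ↦ f_j t`; its image is the Rees algebra of
`(f₁, …, f_m)`. -/
noncomputable def reesMap (f : Fin m → R) : MvPolynomial (Fin m) R →ₐ[R] Polynomial R :=
  aeval fun j => Polynomial.C (f j) * Polynomial.X

/-- The ideal `L` generated by the linear forms `∑ aᵢ yᵢ` with `∑ aᵢ fᵢ = 0`. -/
noncomputable def linearIdeal (f : Fin m → R) : Ideal (MvPolynomial (Fin m) R) :=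
  Ideal.span {l | ∃ a : Fin m → R, ∑ i, a i * f i = 0 ∧ l = ∑ i, C (a i) * X i}

/-- The conductor `C(I) = L :_R J` of the ideal `I = (f₁, …, f_m)`, where `J` is the kernel of `φ`:
the elements `r` with `r J ⊆ L`. -/
noncomputable def conductor (f : Fin m → R) : Ideal R where
  carrier := {r | ∀ F, reesMap f F = 0 → C r * F ∈ linearIdeal f}
  zero_mem' := fun F _ => by simp
  add_mem' := fun {r s} hr hs F hF => by
    rw [C_add, add_mul]
    exact add_mem (hr F hF) (hs F hF)
  smul_mem' := fun c r hr F hF => by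
    rw [smul_eq_mul, C_mul, mul_assoc]
    exact Ideal.mul_mem_left _ _ (hr F hF)

theorem mem_conductor {f : Fin m → R} {r : R} :
    r ∈ conductor f ↔ ∀ F, reesMap f F = 0 → C r * F ∈ linearIdeal f := Iff.rfl

end Q52.Cond
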