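import Mathlib

set_option autoImplicit false

/-!
# The ring `ℤ[e, u, v] / (e² - 2e, eu - 2u, ev, u², uv, v²)`
-/

namespace Q52.Cond

/-- The element `a + b e + c u + d v` of the ring, by its integral coordinates. -/
@[ext] structure A where
  /-- coordinate of `1` -/
  a : ℤ
  /-- coordinate of `e` -/
  b : ℤ
  /-- coordinate of `u` -/
  c : ℤ
  /-- coordinate of `v` -/
  d : ℤ

namespace A

instance : Zero A := ⟨⟨0, 0, 0, 0⟩⟩
instance : One A := ⟨⟨1, 0, 0, 0⟩⟩
instance : Add A := ⟨fun x y => ⟨x.a + y.a, x.b + y.b, x.c + y.c, x.d + y.d⟩⟩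
instance : Neg A := ⟨fun x => ⟨-x.a, -x.b, -x.c, -x.d⟩⟩
/-- The product, from `e² = 2e`, `eu = 2u`, `ev = 0`, `u² = uv = v² = 0`. -/
instance : Mul A := ⟨fun x y => ⟨x.a * y.a, x.a * y.b + x.b * y.a + 2 * x.b * y.b,
  x.a * y.c + x.c * y.a + 2 * x.b * y.c + 2 * x.c * y.b, x.a * y.d + x.d * y.a⟩⟩

@[simp] theorem zero_a : (0 : A).a = 0 := rfl
@[simp] theorem zero_b : (0 : A).b = 0 := rfl
@[simp] theorem zero_c : (0 : A).c = 0 := rfl
@[simp] theorem zero_d : (0 : A).d = 0 := rfl
@[simp] theorem one_a : (1 : A).a = 1 := rfl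
@[simp] theorem one_b : (1 : A).b = 0 := rfl
@[simp] theorem one_c : (1 : A).c = 0 := rfl
@[simp] theorem one_d : (1 : A).d = 0 := rfl
@[simp] theorem add_a (x y : A) : (x + y).a = x.a + y.a := rfl
@[simp] theorem add_b (x y : A) : (x + y).b = x.b + y.b := rfl
@[simp] theorem add_c (x y : A) : (x + y).c = x.c + y.c := rfl
@[simp] theorem add_d (x y : A) : (x + y).d = x.d + y.d := rfl
@[simp] theorem neg_a (x : A) : (-x).a = -x.a := rfl
@[simp] theorem neg_b (x : A) : (-x).b = -x.b := rfl
@[simp] theorem neg_c (x : A) : (-x).c = -x.c := rfl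
@[simp] theorem neg_d (x : A) : (-x).d = -x.d := rfl
@[simp] theorem mul_a (x y : A) : (x * y).a = x.a * y.a := rfl
@[simp] theorem mul_b (x y : A) : (x * y).b = x.a * y.b + x.b * y.a + 2 * x.b * y.b := rfl
@[simp] theorem mul_c (x y : A) :
    (x * y).c = x.a * y.c + x.c * y.a + 2 * x.b * y.c + 2 * x.c * y.b := rfl
@[simp] theorem mul_d (x y : A) : (x * y).d = x.a * y.d + x.d * y.a := rfl

instance : CommRing A where
  add_assoc x y z := by ext <;> simp <;> ring
  zero_add x := by ext <;> simp
  add_zero x := by ext <;> simp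
  add_comm x y := by ext <;> simp <;> ring
  mul_assoc x y z := by ext <;> simp <;> ring
  one_mul x := by ext <;> simp
  mul_one x := by ext <;> simp
  zero_mul x := by ext <;> simp
  mul_zero x := by ext <;> simp
  left_distrib x y z := by ext <;> simp <;> ring
  right_distrib x y z := by ext <;> simp <;> ring
  mul_comm x y := by ext <;> simp <;> ring
  neg_add_cancel x := by ext <;> simp
  nsmul := nsmulRec
  zsmul := zsmulRec

/-- The element `e`. -/
def e : A := ⟨0, 1, 0, 0⟩
/-- The element `u`. -/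
def u : A := ⟨0, 0, 1, 0⟩
/-- The element `v`. -/
def v : A := ⟨0, 0, 0, 1⟩

@[simp] theorem e_a : e.a = 0 := rfl
@[simp] theorem e_b : e.b = 1 := rfl
@[simp] theorem e_c : e.c = 0 := rfl
@[simp] theorem e_d : e.d = 0 := rfl
@[simp] theorem u_a : u.a = 0 := rfl
@[simp] theorem u_b : u.b = 0 := rfl
@[simp] theorem u_c : u.c = 1 := rfl
@[simp] theorem u_d : u.d = 0 := rfl
@[simp] theorem v_a : v.a = 0 := rfl
@[simp] theorem v_b : v.b = 0 := rfl
@[simp] theorem v_c : v.c = 0 := rfl
@[simp] theorem v_d : v.d = 1 := rfl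

/-- Coordinates as an additive map. -/
def coord : A →+ (Fin 4 → ℤ) where
  toFun x := ![x.a, x.b, x.c, x.d]
  map_zero' := by funext i; fin_cases i <;> rfl
  map_add' x y := by funext i; fin_cases i <;> rfl

theorem coord_injective : Function.Injective coord := by
  intro x y h
  ext
  · exact congrFun h 0
  · exact congrFun h 1
  · exact congrFun h 2
  · exact congrFun h 3

instance : IsNoetherianRing A := by
  have h : IsNoetherian ℤ A :=
    isNoetherian_of_injective (coord.toIntLinearMap : A →ₗ[ℤ] (Fin 4 → ℤ)) coord_injective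
  exact isNoetherian_of_tower ℤ h

theorem two_a : (2 : A).a = 2 := by rw [← one_add_one_eq_two]; rfl
theorem two_b : (2 : A).b = 0 := by rw [← one_add_one_eq_two]; rfl
theorem two_c : (2 : A).c = 0 := by rw [← one_add_one_eq_two]; rfl
theorem two_d : (2 : A).d = 0 := by rw [← one_add_one_eq_two]; rfl

theorem e_mul_u : e * u = 2 * u := by ext <;> simp [two_a, two_b, two_c, two_d]
theorem e_mul_v : e * v = 0 := by ext <;> simp
theorem u_mul_u : u * u = 0 := by ext <;> simp
theorem u_mul_v : u * v = 0 := by ext <;> simp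
theorem v_mul_v : v * v = 0 := by ext <;> simp

theorem two_mul_cancel {x : A} (h : 2 * x = 0) : x = 0 := by
  have ha := congrArg A.a h
  have hb := congrArg A.b h
  have hc := congrArg A.c h
  have hd := congrArg A.d h
  simp [two_a, two_b, two_c, two_d] at ha hb hc hd
  ext
  · simpa using ha
  · simpa using hb
  · simpa using hc
  · simpa using hd

theorem two_pow_mul_cancel {x : A} (n : ℕ) (h : 2 ^ n * x = 0) : x = 0 := by
  induction n with
  | zero => simpa using h
  | succ n ih => exact ih (two_mul_cancel (by rw [← mul_assoc, ← pow_succ', h]))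

/-- The first character `x ↦ a + 2 b`. -/
def ch1 : A →+* ℤ where
  toFun x := x.a + 2 * x.b
  map_one' := by simp
  map_zero' := by simp
  map_mul' x y := by simp; ring
  map_add' x y := by simp; ring

/-- The second character `x ↦ a`. -/
def ch2 : A →+* ℤ where
  toFun x := x.a
  map_one' := by simp
  map_zero' := by simp
  map_mul' x y := by simp
  map_add' x y := by simp

end A

end Q52.Cond
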