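import Mathlib
import Pool.Agent.Q52.Cond.Defs
import Pool.Agent.Q52.Cond.Ring

set_option autoImplicit false

/-!
# The conductors of `(u, v)` and of `(2, u, v)`
-/

namespace Q52.Cond

open MvPolynomial A

/-- The generators of `I`. -/
def gens : Fin 2 → A := ![u, v]

/-- The generators of `(I, 2)`. -/
def gens' : Fin 3 → A := Fin.cons 2 gens

/-- The ideal of the elements with vanishing first two coordinates. -/
def tail : Ideal A where
  carrier := {x | x.a = 0 ∧ x.b = 0}
  zero_mem' := by simp
  add_mem' := by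
    rintro x y ⟨hx, hx'⟩ ⟨hy, hy'⟩
    simp [hx, hx', hy, hy']
  smul_mem' := by
    rintro c x ⟨hx, hx'⟩
    simp [hx, hx']

theorem mem_tail {x : A} : x ∈ tail ↔ x.a = 0 ∧ x.b = 0 := Iff.rfl

theorem span_gens : Ideal.span (Set.range gens) = tail := by
  apply le_antisymm
  · rw [Ideal.span_le]
    rintro _ ⟨i, rfl⟩
    fin_cases i <;> exact ⟨rfl, rfl⟩
  · rintro x ⟨ha, hb⟩
    have hx : x = ⟨x.c, 0, 0, 0⟩ * u + ⟨x.d, 0, 0, 0⟩ * v := by
      ext <;> simp [ha, hb]
    rw [hx]
    exact add_mem (Ideal.mul_mem_left _ _ (Ideal.subset_span ⟨0, rfl⟩))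
      (Ideal.mul_mem_left _ _ (Ideal.subset_span ⟨1, rfl⟩))

theorem tail_sq : tail ^ 2 = ⊥ := by
  rw [pow_two, eq_bot_iff, Ideal.mul_le]
  rintro x ⟨hx, hx'⟩ y ⟨hy, hy'⟩
  rw [Ideal.mem_bot]
  ext <;> simp [hx, hx', hy, hy']

/-- `I ^ j : 2 = I ^ j` for all `j`. -/
theorem colon (j : ℕ) (r : A) : r * 2 ∈ (Ideal.span (Set.range gens)) ^ j ↔
    r ∈ (Ideal.span (Set.range gens)) ^ j := by
  rw [span_gens]
  refine ⟨fun h => ?_, fun h => Ideal.mul_mem_right _ _ h⟩
  rcases Nat.lt_or_ge j 2 with hj | hj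
  · interval_cases j
    · simp
    · rw [pow_one] at h ⊢
      rw [mem_tail] at h ⊢
      simpa [two_a, two_b] using h
  · have hle : tail ^ j = ⊥ := by
      rw [eq_bot_iff, ← tail_sq]
      exact Ideal.pow_le_pow_right hj
    rw [hle, Ideal.mem_bot] at h ⊢
    exact two_mul_cancel (by rw [mul_comm, h])

/-! ### The conductor of `I` -/

theorem conductor_le : conductor gens ≤ tail := by
  intro r hr
  rw [mem_conductor] at hr
  -- first character
  have h1 : ch1 r = 0 := by
    let Ψ : MvPolynomial (Fin 2) A →+* Polynomial ℤ :=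
      eval₂Hom (Polynomial.C.comp ch1) ![Polynomial.X, 0]
    have hL : linearIdeal gens ≤ RingHom.ker Ψ := by
      rw [linearIdeal, Ideal.span_le]
      rintro _ ⟨a, ha, rfl⟩
      have hc : ch1 (a 0) = 0 := by
        have := congrArg A.c ha
        simp [gens, Fin.sum_univ_two] at this
        show (a 0).a + 2 * (a 0).b = 0
        linarith
      simp [Ψ, RingHom.mem_ker, Fin.sum_univ_two, hc]
    have hF : reesMap gens (X 0 ^ 2) = 0 := by
      simp only [reesMap, map_pow, aeval_X]
      simp only [gens, Matrix.cons_val_zero]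
      rw [mul_pow, ← Polynomial.C_pow, pow_two u, u_mul_u]
      simp
    have := hL (hr _ hF)
    rw [RingHom.mem_ker] at this
    simpa [Ψ] using this
  have h2 : ch2 r = 0 := by
    let Ψ : MvPolynomial (Fin 2) A →+* Polynomial ℤ :=
      eval₂Hom (Polynomial.C.comp ch2) ![0, Polynomial.X]
    have hL : linearIdeal gens ≤ RingHom.ker Ψ := by
      rw [linearIdeal, Ideal.span_le]
      rintro _ ⟨a, ha, rfl⟩
      have hc : ch2 (a 1) = 0 := by
        have := congrArg A.d ha
        simp [gens, Fin.sum_univ_two] at this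
        show (a 1).a = 0
        linarith
      simp [Ψ, RingHom.mem_ker, Fin.sum_univ_two, hc]
    have hF : reesMap gens (X 1 ^ 2) = 0 := by
      simp only [reesMap, map_pow, aeval_X]
      have e1 : gens 1 = v := rfl
      rw [e1, mul_pow, ← Polynomial.C_pow, pow_two v, v_mul_v]
      simp
    have := hL (hr _ hF)
    rw [RingHom.mem_ker] at this
    simpa [Ψ] using this
  have h1' : r.a + 2 * r.b = 0 := h1
  have h2' : r.a = 0 := h2
  exact ⟨h2', by linarith⟩

/-- The elements with even first two coordinates. -/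
def evens : Ideal A where
  carrier := {x | (2 : ℤ) ∣ x.a ∧ (2 : ℤ) ∣ x.b}
  zero_mem' := by simp
  add_mem' := by
    rintro x y ⟨hx, hx'⟩ ⟨hy, hy'⟩
    exact ⟨dvd_add hx hy, dvd_add hx' hy'⟩
  smul_mem' := by
    rintro c x ⟨hx, hx'⟩
    refine ⟨Dvd.dvd.mul_left hx _, ?_⟩
    simp only [smul_eq_mul, mul_b]
    exact dvd_add (dvd_add (Dvd.dvd.mul_left hx' _) (Dvd.dvd.mul_left hx _))
      (Dvd.dvd.mul_left hx' _)

theorem e_notMem : e ∉ conductor gens ⊔ Ideal.span {2} := by
  intro h
  have hle : conductor gens ⊔ Ideal.span {2} ≤ evens := by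
    refine sup_le (conductor_le.trans ?_) ?_
    · rintro x ⟨hx, hx'⟩
      exact ⟨by rw [hx]; exact dvd_zero _, by rw [hx']; exact dvd_zero _⟩
    · rw [Ideal.span_singleton_le_iff_mem]
      exact ⟨by rw [two_a], by rw [two_b]; exact dvd_zero _⟩
  have := (hle h).2
  rw [e_b] at this
  omega

/-! ### The conductor of `(I, 2)` -/

theorem lin_mem (a : Fin 3 → A) (h : a 0 * 2 + a 1 * u + a 2 * v = 0) :
    C (a 0) * X 0 + C (a 1) * X 1 + C (a 2) * X 2 ∈ linearIdeal gens' := by
  refine Ideal.subset_span ⟨a, ?_, ?_⟩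
  · rw [Fin.sum_univ_three]
    exact h
  · rw [Fin.sum_univ_three]

theorem key_monomial (s : Fin 3 →₀ ℕ) (c : A) :
    ∃ G : Polynomial A, C e * monomial s c - Polynomial.aeval (X 0 : MvPolynomial (Fin 3) A) G ∈
      linearIdeal gens' ∧ ∀ d, 2 ^ d * G.coeff d = e * (reesMap gens' (monomial s c)).coeff d := by
  have h1 : C e * X 1 - C u * X 0 ∈ linearIdeal gens' := by
    have := lin_mem ![-u, e, 0] (by
      show -u * 2 + e * u + 0 * v = 0
      rw [e_mul_u]; ring)
    simpa [sub_eq_add_neg, add_comm] using this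
  have h2 : C e * X 2 ∈ linearIdeal gens' := by
    have := lin_mem ![0, 0, e] (by
      show 0 * 2 + 0 * u + e * v = 0
      rw [e_mul_v]; ring)
    simpa using this
  have h3 : C u * X 1 ∈ linearIdeal gens' := by
    have := lin_mem ![0, u, 0] (by
      show 0 * 2 + u * u + 0 * v = 0
      rw [u_mul_u]; ring)
    simpa using this
  have hmon : monomial s c = C c * (X 0 ^ s 0 * X 1 ^ s 1 * X 2 ^ s 2) := by
    rw [monomial_eq, Finsupp.prod_fintype _ _ (by simp), Fin.prod_univ_three]
  have hrees : reesMap gens' (monomial s c) =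
      Polynomial.C (c * (2 ^ s 0 * u ^ s 1 * v ^ s 2)) * Polynomial.X ^ (s 0 + s 1 + s 2) := by
    rw [hmon]
    simp only [reesMap, map_mul, map_pow, aeval_X, algHom_C]
    have e0 : gens' 0 = 2 := rfl
    have e1 : gens' 1 = u := rfl
    have e2 : gens' 2 = v := rfl
    rw [e0, e1, e2]
    simp only [Polynomial.algebraMap_eq, map_mul, map_pow]
    ring
  rcases Nat.eq_zero_or_pos (s 2) with hs2 | hs2
  · rcases Nat.eq_zero_or_pos (s 1) with hs1 | hs1
    · -- pure power of `X 0`
      refine ⟨Polynomial.C (e * c) * Polynomial.X ^ s 0, ?_, ?_⟩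
      · rw [hmon, hs1, hs2]
        simp only [map_mul, map_pow, Polynomial.aeval_X, Polynomial.aeval_C, algebraMap_eq]
        convert zero_mem (linearIdeal gens') using 1
        ring
      · intro d
        rw [hrees, hs1, hs2, Polynomial.coeff_C_mul_X_pow, Polynomial.coeff_C_mul_X_pow]
        simp only [pow_zero, mul_one, add_zero]
        split_ifs with hd
        · rw [hd]; ring
        · simp
    · rcases Nat.lt_or_ge (s 1) 2 with hs1' | hs1'
      · have hs1'' : s 1 = 1 := by omega
        refine ⟨Polynomial.C (u * c) * Polynomial.X ^ (s 0 + 1), ?_, ?_⟩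
        · rw [hmon, hs1'', hs2]
          simp only [map_mul, map_pow, Polynomial.aeval_X, Polynomial.aeval_C, algebraMap_eq]
          have := Ideal.mul_mem_left (linearIdeal gens') (C c * X 0 ^ s 0) h1
          convert this using 1
          ring
        · intro d
          rw [hrees, hs1'', hs2, Polynomial.coeff_C_mul_X_pow, Polynomial.coeff_C_mul_X_pow]
          simp only [pow_zero, pow_one, mul_one, add_zero]
          split_ifs with hd
          · rw [hd, pow_succ]
            have : e * (c * (2 ^ s 0 * u)) = c * 2 ^ s 0 * (e * u) := by ring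
            rw [this, e_mul_u]; ring
          · simp
      · refine ⟨0, ?_, ?_⟩
        · rw [hmon, hs2]
          obtain ⟨k, hk⟩ := Nat.exists_eq_add_of_le hs1'
          rw [hk]
          simp only [map_zero, sub_zero]
          have h4 := Ideal.mul_mem_left (linearIdeal gens') (C c * X 0 ^ s 0 * X 1 ^ (k + 1)) h1
          have h5 := Ideal.mul_mem_left (linearIdeal gens') (C c * X 0 ^ (s 0 + 1) * X 1 ^ k) h3
          have := add_mem h4 h5
          convert this using 1
          ring
        · intro d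
          rw [hrees, hs2]
          have : u ^ s 1 = 0 := by
            obtain ⟨k, hk⟩ := Nat.exists_eq_add_of_le hs1'
            rw [hk, pow_add, pow_two, u_mul_u, zero_mul]
          rw [this]
          simp
  · refine ⟨0, ?_, ?_⟩
    · rw [hmon]
      obtain ⟨k, hk⟩ := Nat.exists_eq_add_of_le hs2
      rw [hk]
      simp only [map_zero, sub_zero]
      have h4 := Ideal.mul_mem_left (linearIdeal gens') (C c * X 0 ^ s 0 * X 1 ^ s 1 * X 2 ^ k) h2
      convert h4 using 1
      ring
    · intro d
      rw [hrees]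
      obtain ⟨k, hk⟩ := Nat.exists_eq_add_of_le hs2
      rw [Polynomial.coeff_C_mul_X_pow]
      split_ifs
      · have : e * (c * (2 ^ s 0 * u ^ s 1 * v ^ s 2)) = c * 2 ^ s 0 * u ^ s 1 * v ^ k * (e * v) := by
          rw [hk]; ring
        rw [this, e_mul_v]; simp
      · simp

theorem key (F : MvPolynomial (Fin 3) A) :
    ∃ G : Polynomial A, C e * F - Polynomial.aeval (X 0 : MvPolynomial (Fin 3) A) G ∈
      linearIdeal gens' ∧ ∀ d, 2 ^ d * G.coeff d = e * (reesMap gens' F).coeff d := by
  induction F using MvPolynomial.induction_on' with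
  | monomial s c => exact key_monomial s c
  | add F₁ F ih₁ ih =>
    obtain ⟨G, hG, hG'⟩ := ih
    obtain ⟨H, hH, hH'⟩ := ih₁
    refine ⟨H + G, ?_, fun d => ?_⟩
    · have := add_mem hH hG
      convert this using 1
      rw [map_add]
      ring
    · rw [Polynomial.coeff_add, mul_add, hG' d, hH' d, map_add, Polynomial.coeff_add, mul_add]

theorem e_mem : e ∈ conductor gens' := by
  rw [mem_conductor]
  intro F hF
  obtain ⟨G, hG, hG'⟩ := key F
  have hG0 : G = 0 := by
    ext1 d
    rw [Polynomial.coeff_zero]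
    refine two_pow_mul_cancel d ?_
    rw [hG' d, hF]
    simp
  rw [hG0] at hG
  simpa using hG

end Q52.Cond
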